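import Pool.Agent.N688.NC.AdmP

set_option autoImplicit false
set_option maxHeartbeats 4000000

/-!
# Positions in a given class for which prescribed shifts are killed by prescribed primes
-/

open Finset

namespace Pool.Agent.N688.ST

open Pool.Agent.N913.MG Pool.Agent.N688.NC
open Pool.Agent.N913.MT (Cl Wz Wz_pos dvd_Wz crtT TT)

/-- admissible base positions which kill the shifts of a set, in a given class modulo `Q` -/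
theorem exists_i0kQ (Φ : Fam) {J : Type} [Fintype J] (h : J → ℕ) (z0 s0 r0 J0 : ℕ)
    (hch : ∀ p : ℕ, p.Prime → p ∣ Wz z0 → ∃ i : ℕ, ∀ j, ¬ (p : ℤ) ∣ vv Φ (i + h j) (s0, r0))
    (Kl : Finset ℕ) (sh q : ℕ → ℕ)
    (hq : ∀ u ∈ Kl, (q u).Prime ∧ q u < z0 ∧ ∃ i : ℕ, ((q u : ℕ) : ℤ) ∣ vv Φ (i + sh u) (s0, r0) ∧
      ∀ j, ¬ ((q u : ℕ) : ℤ) ∣ vv Φ (i + h j) (s0, r0))
    (hqi : Set.InjOn q Kl) (Q ρ : ℕ) (hQz : ∀ p : ℕ, p.Prime → p ∣ Q → p < z0)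
    (hQk : ∀ u ∈ Kl, ¬ q u ∣ Q)
    (hρ : ∀ p : ℕ, p.Prime → p ∣ Q → ∀ j, ¬ (p : ℤ) ∣ vv Φ (ρ + h j) (s0, r0)) :
    ∃ i0 : ℕ, J0 < i0 ∧ i0 ≤ J0 + Wz z0 ∧ (∀ m : ℕ, ∀ j,
      (vv Φ (i0 + Wz z0 * m + h j) (s0, r0)).natAbs.Coprime (Wz z0)) ∧
      (∀ u ∈ Kl, ∀ i : ℕ, i ≡ i0 [MOD Wz z0] → ((q u : ℕ) : ℤ) ∣ vv Φ (i + sh u) (s0, r0)) ∧
      ∀ p : ℕ, p.Prime → p ∣ Q → ∀ i : ℕ, i ≡ i0 [MOD Wz z0] → i ≡ ρ [MOD p] := by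
  classical
  obtain ⟨P', hP'⟩ : ∃ P', P' = (range z0).filter Nat.Prime := ⟨_, rfl⟩
  have hpr : ∀ p ∈ P', p.Prime := fun p hp => by rw [hP'] at hp; exact (mem_filter.1 hp).2
  have hpz : ∀ p ∈ P', p ∣ Wz z0 := fun p hp => by
    rw [dvd_Wz z0 p (hpr p hp)]
    rw [hP'] at hp
    exact mem_range.1 (mem_filter.1 hp).1
  have hch2 : ∀ u : P', ∃ i : ℕ, (∀ j, ¬ ((u : ℕ) : ℤ) ∣ vv Φ (i + h j) (s0, r0)) ∧
      (∀ t ∈ Kl, q t = (u : ℕ) → ((u : ℕ) : ℤ) ∣ vv Φ (i + sh t) (s0, r0)) ∧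
      ((u : ℕ) ∣ Q → i = ρ) := by
    intro u
    by_cases huQ : (u : ℕ) ∣ Q
    · exact ⟨ρ, hρ u (hpr u u.2) huQ, fun t ht htu => absurd (htu ▸ huQ) (hQk t ht), fun _ => rfl⟩
    by_cases hu : ∃ t ∈ Kl, q t = (u : ℕ)
    · obtain ⟨t, ht, htu⟩ := hu
      obtain ⟨_, _, i, hi1, hi2⟩ := hq t ht
      rw [htu] at hi1 hi2
      refine ⟨i, hi2, ?_, fun h' => absurd h' huQ⟩
      intro t' ht' htu'
      have : t' = t := hqi ht' ht (htu'.trans htu.symm)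
      rw [this]
      exact hi1
    · obtain ⟨i, hi⟩ := hch u (hpr u u.2) (hpz u u.2)
      exact ⟨i, hi, fun t ht htu => absurd ⟨t, ht, htu⟩ hu, fun h' => absurd h' huQ⟩
  choose c hc hck hcQ using hch2
  obtain ⟨a, b, hab⟩ := crtT hpr 1 (fun p hp h => (hpr p hp).one_lt.ne' (Nat.dvd_one.1 h)) 0 0
    (fun t => (c t, c t)) univ
  have hT : 1 * TT (univ : Finset P') = Wz z0 := by
    unfold TT Wz
    rw [one_mul, Finset.prod_coe_sort P' (fun p => p), hP']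
  rw [hT] at hab
  have hW := Wz_pos z0
  obtain ⟨i0, h1, h2, h3⟩ : ∃ i0, J0 < i0 ∧ i0 ≤ J0 + Wz z0 ∧ i0 ≡ a [MOD Wz z0] := by
    refine ⟨J0 + 1 + ((a + (Wz z0 - 1) * (J0 + 1)) % Wz z0), by omega, ?_, ?_⟩
    · have := Nat.mod_lt (a + (Wz z0 - 1) * (J0 + 1)) hW
      omega
    · have h4 : J0 + 1 + ((a + (Wz z0 - 1) * (J0 + 1)) % Wz z0) ≡
          J0 + 1 + (a + (Wz z0 - 1) * (J0 + 1)) [MOD Wz z0] := Nat.ModEq.add_left _ (Nat.mod_modEq _ _)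
      have h5 : J0 + 1 + (a + (Wz z0 - 1) * (J0 + 1)) = a + Wz z0 * (J0 + 1) := by
        obtain ⟨w, hw⟩ : ∃ w, Wz z0 = w + 1 := ⟨Wz z0 - 1, by omega⟩
        rw [hw, Nat.add_sub_cancel]
        ring
      rw [h5] at h4
      exact h4.trans (by unfold Nat.ModEq; simp)
  have hcl : ∀ p (hp : p ∈ P'), i0 ≡ c ⟨p, hp⟩ [MOD p] := by
    intro p hp
    have g4 := ((hab (a, b)).1 ⟨rfl, rfl⟩).2.2 ⟨p, hp⟩ (mem_univ _)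
    exact (h3.of_dvd (hpz p hp)).trans g4.1
  refine ⟨i0, h1, h2, fun m j => ?_, ?_, ?_⟩
  · rw [Nat.coprime_iff_gcd_eq_one]
    by_contra hne
    obtain ⟨p, hp, hpd⟩ := Nat.exists_prime_and_dvd hne
    have g1 := hpd.trans (Nat.gcd_dvd_left _ _)
    have g2 := hpd.trans (Nat.gcd_dvd_right _ _)
    have g3 : (p : ℤ) ∣ vv Φ (i0 + Wz z0 * m + h j) (s0, r0) := Int.natCast_dvd.2 g1
    have hpz' := (dvd_Wz z0 p hp).1 g2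
    have hpP : p ∈ P' := by rw [hP']; exact mem_filter.2 ⟨mem_range.2 hpz', hp⟩
    have g5 : i0 ≡ c ⟨p, hpP⟩ [MOD p] := hcl p hpP
    apply hc ⟨p, hpP⟩ j
    apply (vv_shift Φ p (i0 + Wz z0 * m + h j) (c ⟨p, hpP⟩ + h j) (s0, r0) _).1 g3
    have g6 : (p : ℤ) ∣ (i0 : ℤ) - c ⟨p, hpP⟩ := Nat.modEq_iff_dvd.1 g5.symm
    have g7 : (p : ℤ) ∣ (Wz z0 : ℤ) * m := Dvd.dvd.mul_right (by exact_mod_cast g2) _
    have e : ((i0 + Wz z0 * m + h j : ℕ) : ℤ) - ((c ⟨p, hpP⟩ + h j : ℕ) : ℤ) =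
        (i0 - c ⟨p, hpP⟩) + Wz z0 * m := by push_cast; ring
    rw [e]
    exact dvd_add g6 g7
  · intro t ht i hi
    obtain ⟨g1, g3, _⟩ := hq t ht
    have hpP : q t ∈ P' := by rw [hP']; exact mem_filter.2 ⟨mem_range.2 g3, g1⟩
    have hpd : q t ∣ Wz z0 := (dvd_Wz z0 (q t) g1).2 g3
    have g5 := hck ⟨q t, hpP⟩ t ht rfl
    have g6 : i ≡ c ⟨q t, hpP⟩ [MOD q t] := (hi.of_dvd hpd).trans (hcl _ hpP)
    apply (vv_shift Φ (q t) (i + sh t) (c ⟨q t, hpP⟩ + sh t) (s0, r0) _).2 g5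
    have g7 : ((q t : ℕ) : ℤ) ∣ (i : ℤ) - c ⟨q t, hpP⟩ := Nat.modEq_iff_dvd.1 g6.symm
    have e : ((i + sh t : ℕ) : ℤ) - ((c ⟨q t, hpP⟩ + sh t : ℕ) : ℤ) = i - c ⟨q t, hpP⟩ := by push_cast; ring
    rw [e]
    exact g7
  · intro p hp hpQ i hi
    have hpP : p ∈ P' := by rw [hP']; exact mem_filter.2 ⟨mem_range.2 (hQz p hp hpQ), hp⟩
    have g5 := (hi.of_dvd (hpz p hpP)).trans (hcl p hpP)
    rw [hcQ ⟨p, hpP⟩ hpQ] at g5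
    exact g5

end Pool.Agent.N688.ST
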