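import Mathlib

set_option autoImplicit false
set_option maxHeartbeats 4000000

/-!
# Sequences all of whose differences divide the later ones
-/

namespace Pool.Agent.N688.ST

open Finset

/-- the differences `ch Q v - ch Q u`, `u < v`, divide the later differences and are smaller -/
def ch (Q : ℕ) : ℕ → ℕ
  | 0 => 0
  | n + 1 => ch Q n + Q * (ch Q n + 1).factorial

theorem ch_lt (Q : ℕ) (hQ : 0 < Q) : StrictMono (ch Q) := by
  apply strictMono_nat_of_lt_succ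
  intro n
  have : 0 < Q * (ch Q n + 1).factorial := Nat.mul_pos hQ (Nat.factorial_pos _)
  show ch Q n < ch Q n + Q * (ch Q n + 1).factorial
  omega

theorem dvd_ch (Q n : ℕ) : Q ∣ ch Q n := by
  induction n with
  | zero => exact dvd_zero _
  | succ n ih => exact dvd_add ih (dvd_mul_right _ _)

theorem ch_step (Q : ℕ) (hQ : 0 < Q) (u v w : ℕ) (huv : u < v) (hvw : v < w) :
    ch Q v - ch Q u < ch Q w - ch Q v ∧ (ch Q v - ch Q u) ∣ (ch Q w - ch Q v) := by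
  have hmono := ch_lt Q hQ
  have h1 := hmono huv
  obtain ⟨e, rfl⟩ : ∃ e, w = v + 1 + e := ⟨w - (v + 1), by omega⟩
  clear hvw
  induction e with
  | zero =>
    have h2 : ch Q (v + 1 + 0) = ch Q v + Q * (ch Q v + 1).factorial := rfl
    rw [h2, Nat.add_sub_cancel_left]
    constructor
    · have h3 : ch Q v + 1 ≤ (ch Q v + 1).factorial := Nat.self_le_factorial _
      have h4 : (ch Q v + 1).factorial ≤ Q * (ch Q v + 1).factorial := Nat.le_mul_of_pos_left _ hQ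
      omega
    · exact (Nat.dvd_factorial (by omega) (by omega)).mul_left _
  | succ e ih =>
    have h2 : ch Q (v + 1 + (e + 1)) = ch Q (v + 1 + e) + Q * (ch Q (v + 1 + e) + 1).factorial := rfl
    have h3 : ch Q v < ch Q (v + 1 + e) := hmono (by omega)
    have h4 : ch Q (v + 1 + (e + 1)) - ch Q v =
        (ch Q (v + 1 + e) - ch Q v) + Q * (ch Q (v + 1 + e) + 1).factorial := by
      rw [h2]
      omega
    rw [h4]
    constructor
    · have := ih.1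
      omega
    · exact dvd_add ih.2 ((Nat.dvd_factorial (by omega) (by omega)).mul_left _)

/-- the increasing set -/
def SI (Q K : ℕ) : Finset ℕ := (range K).image (ch Q)

/-- the decreasing set -/
def SD (Q K : ℕ) : Finset ℕ := (range K).image (fun u => ch Q K - ch Q u)

theorem card_SI (Q K : ℕ) (hQ : 0 < Q) : (SI Q K).card = K := by
  unfold SI
  rw [card_image_of_injective _ (ch_lt Q hQ).injective, card_range]

theorem card_SD (Q K : ℕ) (hQ : 0 < Q) : (SD Q K).card = K := by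
  unfold SD
  rw [card_image_of_injOn, card_range]
  intro u hu v hv huv
  have hu' := mem_range.1 (mem_coe.1 hu)
  have hv' := mem_range.1 (mem_coe.1 hv)
  have h1 := ch_lt Q hQ hu'
  have h2 := ch_lt Q hQ hv'
  simp only at huv
  apply (ch_lt Q hQ).injective
  omega

theorem SI_sub (Q K : ℕ) (hQ : 0 < Q) : SI Q K ⊆ range (ch Q K + Q) := by
  intro x hx
  obtain ⟨u, hu, rfl⟩ := mem_image.1 hx
  have := ch_lt Q hQ (mem_range.1 hu)
  rw [mem_range]
  omega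

theorem SD_sub (Q K : ℕ) (hQ : 0 < Q) : SD Q K ⊆ range (ch Q K + Q) := by
  intro x hx
  obtain ⟨u, _, rfl⟩ := mem_image.1 hx
  rw [mem_range]
  omega

theorem SI_dvd (Q K : ℕ) : ∀ x ∈ SI Q K, Q ∣ x := by
  intro x hx
  obtain ⟨u, _, rfl⟩ := mem_image.1 hx
  exact dvd_ch Q u

theorem SD_dvd (Q K : ℕ) : ∀ x ∈ SD Q K, Q ∣ x := by
  intro x hx
  obtain ⟨u, _, rfl⟩ := mem_image.1 hx
  exact Nat.dvd_sub (dvd_ch Q K) (dvd_ch Q u)

theorem SI_step (Q K : ℕ) (hQ : 0 < Q) (x y z : ℕ) (hx : x ∈ SI Q K) (hy : y ∈ SI Q K)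
    (hz : z ∈ SI Q K) (hxy : x < y) (hyz : y < z) :
    (y : ℤ) - x < z - y ∧ ((y : ℤ) - x) ∣ ((z : ℤ) - y) := by
  obtain ⟨u, _, rfl⟩ := mem_image.1 hx
  obtain ⟨v, _, rfl⟩ := mem_image.1 hy
  obtain ⟨w, _, rfl⟩ := mem_image.1 hz
  have h1 := (ch_lt Q hQ).lt_iff_lt.1 hxy
  have h2 := (ch_lt Q hQ).lt_iff_lt.1 hyz
  obtain ⟨h3, h4⟩ := ch_step Q hQ u v w h1 h2
  rw [← Nat.cast_sub hxy.le, ← Nat.cast_sub hyz.le]
  exact ⟨by exact_mod_cast h3, by exact_mod_cast h4⟩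

theorem SD_step (Q K : ℕ) (hQ : 0 < Q) (x y z : ℕ) (hx : x ∈ SD Q K) (hy : y ∈ SD Q K)
    (hz : z ∈ SD Q K) (hxy : x < y) (hyz : y < z) :
    (z : ℤ) - y < y - x ∧ ((z : ℤ) - y) ∣ ((y : ℤ) - x) := by
  obtain ⟨u, hu, rfl⟩ := mem_image.1 hx
  obtain ⟨v, hv, rfl⟩ := mem_image.1 hy
  obtain ⟨w, hw, rfl⟩ := mem_image.1 hz
  have gu := ch_lt Q hQ (mem_range.1 hu)
  have gv := ch_lt Q hQ (mem_range.1 hv)
  have gw := ch_lt Q hQ (mem_range.1 hw)
  have h1 : v < u := (ch_lt Q hQ).lt_iff_lt.1 (by omega)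
  have h2 : w < v := (ch_lt Q hQ).lt_iff_lt.1 (by omega)
  have k1 := ch_lt Q hQ h1
  have k2 := ch_lt Q hQ h2
  obtain ⟨h3, h4⟩ := ch_step Q hQ w v u h2 h1
  have e1 : (((ch Q K - ch Q w : ℕ)) : ℤ) - ((ch Q K - ch Q v : ℕ) : ℤ) = ((ch Q v - ch Q w : ℕ) : ℤ) := by
    omega
  have e2 : (((ch Q K - ch Q v : ℕ)) : ℤ) - ((ch Q K - ch Q u : ℕ) : ℤ) = ((ch Q u - ch Q v : ℕ) : ℤ) := by
    omega
  rw [e1, e2]
  exact ⟨by exact_mod_cast h3, by exact_mod_cast h4⟩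

end Pool.Agent.N688.ST
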