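import Pool.Agent.N688.ST.PtQ
import Pool.Agent.N913.MG.R1

set_option autoImplicit false
set_option maxHeartbeats 4000000

/-!
# Prime values of `P + b x + c` in a given class, for almost all `(b, c)`
-/

namespace Pool.Agent.N688.ST

open Finset Filter
open Pool.Agent.N913.MG Pool.Agent.N688.NC
open Pool.Agent.N913.MT (evt_log_ge)

/-- `Pool.Agent.N913.MG.polynomials` (helper913) for one window, in a given class, all the other shifts killed -/
theorem polynomials4 (d m Q : ℕ) (hQ0 : 0 < Q) : ∃ k B : ℕ, ∀ (H : ℕ) (S : Finset ℕ), S ⊆ range H →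
    (∀ h ∈ S, Q ∣ h) → Q ≤ 12 * H → k ≤ S.card → ∀ (A C : ℕ) (ε : ℝ), 0 < ε →
    ∃ X₀ : ℕ, ∀ X : ℕ, X₀ ≤ X → ∀ J : ℕ, (J : ℝ) ≤ Real.log X ^ C →
    ∀ P : Polynomial ℤ, P.natDegree ≤ d → (∀ i, |(P.coeff i : ℝ)| ≤ X * Real.log X ^ A) →
    ∃ Bad : Finset (ℤ × ℤ), (Bad.card : ℝ) ≤ ε * X ^ 2 ∧ ∀ b c : ℤ, |b| ≤ X → |c| ≤ X →
      (∀ p : ℕ, p.Prime → ∃ t : ℤ, ¬ (p : ℤ) ∣ val P b c t) → (b, c) ∉ Bad → ∀ ρ < Q,
      (∀ p : ℕ, p.Prime → p ∣ Q → ¬ (p : ℤ) ∣ val P b c (ρ : ℕ)) →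
      ∃ n : ℕ, J < n ∧ (n : ℝ) ≤ J + Real.log X ^ B ∧
        (∀ p : ℕ, p.Prime → p ∣ Q → n ≡ ρ [MOD p]) ∧
        (∀ t ∈ range H \ S, ¬ (val P b c (n + t : ℕ)).natAbs.Prime) ∧
        m ≤ (S.filter (fun h => (val P b c (n + h : ℕ)).natAbs.Prime)).card := by
  classical
  obtain ⟨k, B, hmt⟩ := mt4 m (d + 1) Q hQ0
  refine ⟨k, B + 1, fun H S hSH hSQ hQH hS A C ε hε => ?_⟩
  obtain ⟨S0, hS0⟩ := hmt H S hSH hSQ hQH hS (A + 1) (d + 1) C (ε / 9) (by positivity)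
  obtain ⟨X0, hX0⟩ := log_evt B
  obtain ⟨X1, hX1⟩ := eventually_atTop.1 (evt_log_ge (d + 2))
  refine ⟨max S0 (max X0 (max X1 3)), fun X hX J hJ P hPd hPc => ?_⟩
  have hXS : S0 ≤ X := (le_max_left _ _).trans hX
  have hXX : X0 ≤ X := ((le_max_left _ _).trans (le_max_right _ _)).trans hX
  have hXX1 : X1 ≤ X := (((le_max_left _ _).trans (le_max_right _ _)).trans (le_max_right _ _)).trans hX
  have hX3 : 3 ≤ X := (((le_max_right _ _).trans (le_max_right _ _)).trans (le_max_right _ _)).trans hX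
  obtain ⟨l2, lS, lB⟩ := hX0 X (2 * X + 1) hXX (by omega) (by omega)
  have ld := hX1 X hXX1
  have hXr : (3 : ℝ) ≤ X := by exact_mod_cast hX3
  have hNN := NN_FP P X
  have hN0 : NN (FP P X) ≤ 9 * X ^ 2 := by rw [hNN]; nlinarith
  have hLge : Real.log X ≤ (⌈Real.log ((2 * X + 1 : ℕ) : ℝ)⌉₊ : ℕ) := lS.trans (Nat.le_ceil _)
  obtain ⟨L, hL⟩ : ∃ L, L = ⌈Real.log ((2 * X + 1 : ℕ) : ℝ)⌉₊ := ⟨_, rfl⟩
  rw [← hL] at hLge
  have hLd : d + 2 ≤ L := by
    have h1 : ((d + 2 : ℕ) : ℝ) ≤ L := by push_cast; linarith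
    exact_mod_cast h1
  obtain ⟨Bad, hb1, hb2⟩ := hS0 (FP P X) (by show S0 ≤ 2 * X + 1; omega)
    (fun t => by
      show |P.eval (t : ℤ) - X * t + X| ≤ ((⌈Real.log ((2 * X + 1 : ℕ) : ℝ)⌉₊ : ℕ) : ℤ) ^ (A + 1) *
        ((2 * X + 1 : ℕ) : ℤ) * ((t : ℤ) + 1) ^ (d + 1)
      rw [← hL]
      apply c_bd P X d A L (by omega) hLd hPd _ t
      intro i
      have h1 := hPc i
      have h2 : (X : ℝ) * Real.log X ^ A ≤ X * (L : ℝ) ^ A := by
        apply mul_le_mul_of_nonneg_left _ (by positivity)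
        exact pow_le_pow_left₀ (by linarith) hLge A
      have h3 : |(P.coeff i : ℝ)| ≤ X * (L : ℝ) ^ A := h1.trans h2
      exact_mod_cast h3)
    (by
      rw [hNN]
      show ((2 * X + 1 : ℕ) : ℝ) ^ 2 ≤ _
      push_cast
      nlinarith [sq_nonneg (2 * (X : ℝ) + 1)]) J (by
      have h2 : Real.log X ^ C ≤ Real.log ((2 * X + 1 : ℕ) : ℝ) ^ C :=
        pow_le_pow_left₀ (by linarith) lS C
      exact hJ.trans h2)
  refine ⟨Bad.image (fun x => ((x.1 : ℤ) - X, (X : ℤ) - x.2)), ?_, ?_⟩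
  · calc (((Bad.image (fun x => ((x.1 : ℤ) - X, (X : ℤ) - x.2))).card : ℕ) : ℝ) ≤ Bad.card := by
          exact_mod_cast card_image_le
      _ ≤ ε / 9 * NN (FP P X) := hb1
      _ ≤ ε / 9 * (9 * X ^ 2) := mul_le_mul_of_nonneg_left hN0 (by positivity)
      _ = _ := by ring
  · intro b c hb hc hloc hxB ρ hρ hρn
    have hnB : ((b + X).toNat, (X - c).toNat) ∉ Bad := by
      intro h
      apply hxB
      rw [mem_image]
      refine ⟨_, h, ?_⟩
      rw [abs_le] at hb hc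
      simp only [Prod.mk.injEq]
      constructor
      · rw [Int.toNat_of_nonneg (by linarith)]; ring
      · rw [Int.toNat_of_nonneg (by linarith)]; ring
    have hb' := abs_le.1 hb
    have hc' := abs_le.1 hc
    obtain ⟨i, hi1, hi2, hiQ, hik, hi3⟩ := hb2 ((b + X).toNat, (X - c).toNat)
      (by show (b + X).toNat < 2 * X + 1; omega) (by show (X - c).toNat < 2 * X + 1; omega)
      (by
        intro p hp
        obtain ⟨t, ht⟩ := locP1 P b c p hp (hloc p hp)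
        refine ⟨⟨t, by rw [vv_FP P X b c hb hc]; exact ht⟩, ?_⟩
        refine le_trans (le_of_eq ?_) (locP2 d P hPd b c p hp (hloc p hp))
        congr 1
        apply filter_congr
        intro t _
        rw [vv_FP P X b c hb hc]) hnB ρ hρ
      (by
        intro p hp hpQ
        rw [vv_FP P X b c hb hc]
        exact hρn p hp hpQ)
    refine ⟨i, hi1, ?_, hiQ, ?_, ?_⟩
    · have h2 : (i : ℝ) ≤ J + Real.log ((2 * X + 1 : ℕ) : ℝ) ^ B := hi2
      linarith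
    · intro t ht
      rw [← vv_FP P X b c hb hc]
      exact hik t ht
    · refine hi3.trans (le_of_eq ?_)
      congr 1
      apply filter_congr
      intro h _
      rw [vv_FP P X b c hb hc]

end Pool.Agent.N688.ST
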