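import Pool.Agent.N913.MG.L14
import Pool.Agent.N688.NC.PtP
import Pool.Agent.N688.ST.AdmQ

set_option autoImplicit false
set_option maxHeartbeats 4000000

/-!
# Clusters of prime values in a given class, with no other prime values among the shifts
-/

namespace Pool.Agent.N688.ST

open Finset Filter
open Pool.Agent.N913.MG Pool.Agent.N688.NC
open Pool.Agent.N913.MT (zX WX GX HX Wz Wz_le Wz_pos dvd_Wz Wphi zX_evt)

/-- from the classes to almost all pairs -/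
theorem pairs4 {J : Type} [Fintype J] [DecidableEq J] (K m : ℕ) (hJ : Fintype.card J = 2 ^ K)
    (c0 : ℝ) (hc0 : 0 < c0) (zc : ℕ)
    (hzc : ∀ z0, zc ≤ z0 → c0 * Real.log z0 ≤ (Wz z0 : ℝ) / Nat.totient (Wz z0))
    (hK : 12096000 * (m : ℝ) < c0 * (K + 1))
    (h : J → ℕ) (hinj : ∀ j j', j ≠ j' → h j ≠ h j')
    (sm : ℕ) (hsm : ∀ j, h j ≤ sm)
    (b C A d : ℕ) (hb : b = 12 * 2 ^ (Fintype.card (Fin 2 × Bool × J)) + 4) (θ : ℝ) (hθ0 : 0 < θ)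
    (hθ : θ ≤ 1 / 2) (H : ℕ) (hH : ∀ j, h j < H) (Kl : Finset ℕ)
    (hKl : ∀ t ∈ Kl, t < H ∧ ∀ j, h j ≠ t) (η : ℝ) (hη : 0 < η) (Q ρ : ℕ) (hQ0 : 0 < Q)
    (hQH : Q ≤ 12 * H) (hQh : ∀ j, Q ∣ h j) :
    ∃ S0 : ℕ, ∀ Φ : Fam, S0 ≤ Φ.S2 →
      (∀ t : ℕ, |Φ.c t| ≤ ⌈Real.log Φ.S2⌉₊ ^ A * Φ.S2 * (t + 1) ^ d) →
      (Φ.S2 : ℝ) ^ 2 ≤ 4 * NN Φ → ∀ J0 : ℕ, (J0 : ℝ) ≤ Real.log Φ.S2 ^ C →
      ∃ Bad : Finset (ℕ × ℕ), (Bad.card : ℝ) ≤ (44 * (Fintype.card J + 1) * θ + η) * NN Φ ∧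
        ∀ n : ℕ × ℕ, n.1 < Φ.S2 → n.2 < Φ.g n.1 →
          (∀ p : ℕ, p.Prime → ∃ i : ℕ, ∀ j, ¬ (p : ℤ) ∣ vv Φ (i + h j) n) → n ∉ Bad →
          (∀ p : ℕ, p.Prime → p ∣ Q → ¬ (p : ℤ) ∣ vv Φ ρ n) →
          ∃ i : ℕ, J0 < i ∧ (i : ℝ) ≤ J0 + Real.log Φ.S2 ^ (b + 3) ∧
            (∀ p : ℕ, p.Prime → p ∣ Q → i ≡ ρ [MOD p]) ∧
            (∀ t ∈ Kl, ¬ (vv Φ (i + t) n).natAbs.Prime) ∧
            m ≤ ((univ : Finset J).filter (fun l => (vv Φ (i + h l) n).natAbs.Prime)).card := by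
  classical
  obtain ⟨S0, hS0⟩ := class_thm3 K m hJ c0 hc0 zc hzc hK h hinj sm hsm b C A d hb θ hθ0 hθ
  obtain ⟨Gs, Pm, hG1, hG2, hG3, XG, hG4⟩ := kill_familyP H (2 * H) (η / 4) (by positivity)
  obtain ⟨X1, hX1⟩ := zX_evt (Pm + 1 + Q)
  refine ⟨max S0 (max XG X1), fun Φ hΦ hc hN J0 hJ0 => ?_⟩
  have hΦ0 : S0 ≤ Φ.S2 := (le_max_left _ _).trans hΦ
  have hΦ1 : XG ≤ Φ.S2 := ((le_max_left _ _).trans (le_max_right _ _)).trans hΦ
  have hΦ2 : X1 ≤ Φ.S2 := ((le_max_right _ _).trans (le_max_right _ _)).trans hΦ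
  have hzX : Pm + 1 + Q ≤ zX Φ.S2 := hX1 _ hΦ2
  obtain ⟨hWG, hW1, hcls⟩ := hS0 Φ hΦ0 hc hN J0 hJ0
  have hWz : WX Φ.S2 = Wz (zX Φ.S2) := rfl
  -- the keys
  set K2 : Finset ℕ := (range (2 * H)).filter (fun u => u / 2 ∈ Kl) with hK2
  have hK2m : ∀ u ∈ K2, u < 2 * H ∧ u / 2 ∈ Kl := fun u hu =>
    ⟨mem_range.1 (mem_filter.1 hu).1, (mem_filter.1 hu).2⟩
  have hcls' : ∀ s0 r0 : ℕ, ∃ B : Finset (ℕ × ℕ),
      (B.card : ℝ) ≤ 44 * (Fintype.card J + 1) * θ * (NN Φ / (WX Φ.S2 : ℝ) ^ 2) ∧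
      ((∀ p : ℕ, p.Prime → p ∣ WX Φ.S2 → ∃ i : ℕ, ∀ j, ¬ (p : ℤ) ∣ vv Φ (i + h j) (s0, r0)) →
      (∀ t < 2 * H, ∃ q ∈ Gs t, GoodP Φ q H (s0, r0)) →
      (∀ p : ℕ, p.Prime → p ∣ Q → ¬ (p : ℤ) ∣ vv Φ ρ (s0, r0)) →
      ∀ n ∈ CS Φ (WX Φ.S2) s0 r0, n ∉ B → ∃ i : ℕ, J0 < i ∧ i ≤ J0 + WX Φ.S2 * GX b Φ.S2 ∧
        (∀ p : ℕ, p.Prime → p ∣ Q → i ≡ ρ [MOD p]) ∧
        (∀ t ∈ Kl, ∃ q q' : ℕ, q.Prime ∧ q'.Prime ∧ q ≠ q' ∧ (q : ℤ) ∣ vv Φ (i + t) n ∧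
          (q' : ℤ) ∣ vv Φ (i + t) n) ∧
        m ≤ ((univ : Finset J).filter (fun l => (vv Φ (i + h l) n).natAbs.Prime)).card) := by
    intro s0 r0
    by_cases hch : ∀ p : ℕ, p.Prime → p ∣ WX Φ.S2 → ∃ i : ℕ, ∀ j, ¬ (p : ℤ) ∣ vv Φ (i + h j) (s0, r0)
    · by_cases hgρ : (∀ t < 2 * H, ∃ q ∈ Gs t, GoodP Φ q H (s0, r0)) ∧
          (∀ p : ℕ, p.Prime → p ∣ Q → ¬ (p : ℤ) ∣ vv Φ ρ (s0, r0))
      · obtain ⟨hg, hρ0⟩ := hgρ
        choose! q hq1 hq2 using hg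
        have hqinj : Set.InjOn q K2 := by
          intro t ht t' ht' htt
          by_contra hne
          have e1 := hq1 t (hK2m t (mem_coe.1 ht)).1
          have e2 := hq1 t' (hK2m t' (mem_coe.1 ht')).1
          rw [← htt] at e2
          exact (disjoint_left.1 (hG3 t t' hne)) e1 e2
        obtain ⟨i0, h1, h2, h3, h4, h5⟩ := exists_i0kQ Φ h (zX Φ.S2) s0 r0 J0 hch K2 (fun u => u / 2) q
          (by
            intro u hu
            obtain ⟨u1, u2⟩ := hK2m u hu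
            have g1 := hG1 u (q u) (hq1 u u1)
            have g2 := hG2 u u1 (q u) (hq1 u u1)
            obtain ⟨k1, k2⟩ := hKl _ u2
            obtain ⟨j, j1, j2⟩ := killP g1.1.pos (s0, r0) (u / 2) k1 (hq2 u u1)
            exact ⟨g1.1, by omega, j, j1, fun l => j2 (h l) (hH l) (k2 l)⟩) hqinj Q ρ
          (fun p hp hpQ => by
            have := Nat.le_of_dvd hQ0 hpQ
            omega)
          (fun u hu hdv => by
            obtain ⟨u1, u2⟩ := hK2m u hu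
            have g1 := hG1 u (q u) (hq1 u u1)
            have := Nat.le_of_dvd hQ0 hdv
            omega)
          (fun p hp hpQ j hd => hρ0 p hp hpQ ((vv_shift Φ p (ρ + h j) ρ (s0, r0) (by
            rw [Nat.cast_add, add_sub_cancel_left]
            exact_mod_cast hpQ.trans (hQh j))).1 hd))
        obtain ⟨B, _, hB2, hB3⟩ := hcls s0 r0 i0 h1 h2 h3
        refine ⟨B, hB2, fun _ _ _ n hn hnB => ?_⟩
        obtain ⟨i, g1, g2, g3, g4⟩ := hB3 n hn hnB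
        refine ⟨i, g1, g2, fun p hp hpQ => h5 p hp hpQ i g3, fun t ht => ?_, g4⟩
        have hn' := (mem_filter.1 hn).2
        have key : ∀ u ∈ K2, (q u).Prime ∧ ((q u : ℕ) : ℤ) ∣ vv Φ (i + u / 2) n := by
          intro u hu
          obtain ⟨u1, u2⟩ := hK2m u hu
          have g6 := hG1 u (q u) (hq1 u u1)
          have g7 := hG2 u u1 (q u) (hq1 u u1)
          have g8 : q u ∣ WX Φ.S2 := by
            rw [hWz, dvd_Wz _ _ g6.1]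
            omega
          refine ⟨g6.1, ?_⟩
          exact (vvc Φ (q u) (i + u / 2) n (s0, r0) (hn'.2.1.of_dvd g8) (hn'.2.2.of_dvd g8)).2
            (h4 u hu i g3)
        have k0 : 2 * t ∈ K2 := by
          rw [hK2, mem_filter, mem_range]
          have := (hKl t ht).1
          refine ⟨by omega, ?_⟩
          rw [show 2 * t / 2 = t by omega]
          exact ht
        have k1 : 2 * t + 1 ∈ K2 := by
          rw [hK2, mem_filter, mem_range]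
          have := (hKl t ht).1
          refine ⟨by omega, ?_⟩
          rw [show (2 * t + 1) / 2 = t by omega]
          exact ht
        obtain ⟨a1, a2⟩ := key _ k0
        obtain ⟨a3, a4⟩ := key _ k1
        rw [show 2 * t / 2 = t by omega] at a2
        rw [show (2 * t + 1) / 2 = t by omega] at a4
        refine ⟨q (2 * t), q (2 * t + 1), a1, a3, ?_, a2, a4⟩
        intro hqq
        have := hqinj (mem_coe.2 k0) (mem_coe.2 k1) hqq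
        omega
      · refine ⟨∅, ?_, fun _ h' h'' => absurd ⟨h', h''⟩ hgρ⟩
        rw [card_empty]
        have := NN_nonneg Φ
        push_cast
        positivity
    · refine ⟨∅, ?_, fun h' => absurd h' hch⟩
      rw [card_empty]
      have := NN_nonneg Φ
      push_cast
      positivity
  choose B hB1 hB2 using hcls'
  obtain ⟨W, hW⟩ : ∃ W, W = WX Φ.S2 := ⟨_, rfl⟩
  rw [← hW] at hWG hW1 hB1 hB2
  set Bad1 : Finset (ℕ × ℕ) := (range W ×ˢ range W).biUnion (fun c => B c.1 c.2) with hBad1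
  set Bad2 : Finset (ℕ × ℕ) := (range Φ.S2 ×ˢ range Φ.S2).filter
    (fun x : ℕ × ℕ => ∃ t < 2 * H, ∀ q ∈ Gs t, ¬ GoodP Φ q H x) with hBad2
  refine ⟨Bad1 ∪ Bad2, ?_, ?_⟩
  · have hWr : (1 : ℝ) ≤ W := by exact_mod_cast hW1
    have c1 : (Bad1.card : ℝ) ≤ 44 * ((Fintype.card J : ℝ) + 1) * θ * NN Φ := by
      calc _ ≤ ((∑ c ∈ range W ×ˢ range W, (B c.1 c.2).card : ℕ) : ℝ) := by
            exact_mod_cast card_biUnion_le
        _ = ∑ c ∈ range W ×ˢ range W, ((B c.1 c.2).card : ℝ) := by push_cast; rfl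
        _ ≤ ∑ c ∈ range W ×ˢ range W,
            44 * ((Fintype.card J : ℝ) + 1) * θ * (NN Φ / (W : ℝ) ^ 2) :=
            sum_le_sum fun c _ => hB1 c.1 c.2
        _ = 44 * ((Fintype.card J : ℝ) + 1) * θ * NN Φ := by
            rw [sum_const, card_product, card_range, nsmul_eq_mul]
            push_cast
            field_simp
    have c2 : (Bad2.card : ℝ) ≤ η * NN Φ := by
      have h1 : (Bad2.card : ℝ) ≤ η / 4 * (Φ.S2 : ℝ) ^ 2 := by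
        rw [hBad2]
        convert hG4 Φ Φ.S2 hΦ1
      calc (Bad2.card : ℝ) ≤ η / 4 * (Φ.S2 : ℝ) ^ 2 := h1
        _ ≤ η / 4 * (4 * NN Φ) := mul_le_mul_of_nonneg_left hN (by positivity)
        _ = _ := by ring
    have c3 : ((Bad1 ∪ Bad2).card : ℝ) ≤ Bad1.card + Bad2.card := by
      exact_mod_cast card_union_le _ _
    linarith
  · intro n hn1 hn2 hloc hnB hρn
    rw [mem_union, not_or] at hnB
    obtain ⟨hnB1, hnB2⟩ := hnB
    have hn3 : n.2 < Φ.S2 := lt_of_lt_of_le hn2 (Φ.hg3 n.1 hn1)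
    have hm1 : n.1 ≡ n.1 % W [MOD W] := (Nat.mod_modEq n.1 W).symm
    have hm2 : n.2 ≡ n.2 % W [MOD W] := (Nat.mod_modEq n.2 W).symm
    obtain ⟨i, hi1, hi2, hiQ, hik, hi3⟩ := hB2 (n.1 % W) (n.2 % W) (fun p hp hpW => by
      obtain ⟨i, hi⟩ := hloc p hp
      exact ⟨i, fun j hj => hi j ((vv_mod Φ p W (i + h j) hpW n (n.1 % W, n.2 % W) hm1 hm2).2 hj)⟩)
      (by
        intro t ht
        by_contra hcon
        push Not at hcon
        apply hnB2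
        rw [hBad2, mem_filter, mem_product, mem_range, mem_range]
        refine ⟨⟨hn1, hn3⟩, t, ht, fun q hq hgq => hcon q hq ?_⟩
        have g1 := hG1 t q hq
        have g2 := hG2 t ht q hq
        have g3 : q ∣ W := by
          rw [hW, hWz, dvd_Wz _ _ g1.1]
          omega
        exact hgq.congr (hm1.of_dvd g3) (hm2.of_dvd g3))
      (fun p hp hpQ hd => hρn p hp hpQ ((vv_mod Φ p W ρ (by
        rw [hW, hWz, dvd_Wz _ _ hp]
        have := Nat.le_of_dvd hQ0 hpQ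
        omega) n (n.1 % W, n.2 % W) hm1 hm2).2 hd)) n
      (by
        unfold CS
        rw [mem_filter, mem_product, mem_range, mem_range]
        exact ⟨⟨hn1, hn3⟩, hn2, hm1, hm2⟩)
      (fun hB => hnB1 (mem_biUnion.2 ⟨(n.1 % W, n.2 % W), mem_product.2
        ⟨mem_range.2 (Nat.mod_lt _ hW1), mem_range.2 (Nat.mod_lt _ hW1)⟩, hB⟩))
    refine ⟨i, hi1, ?_, hiQ, ?_, hi3⟩
    · have h2 : (i : ℝ) ≤ J0 + ((W * GX b Φ.S2 : ℕ) : ℝ) := by exact_mod_cast hi2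
      linarith
    · intro t ht hp
      obtain ⟨q, q', hq, hq', hne, hd, hd'⟩ := hik t ht
      have e1 := (Nat.prime_dvd_prime_iff_eq hq hp).1 (Int.natCast_dvd.1 hd)
      have e2 := (Nat.prime_dvd_prime_iff_eq hq' hp).1 (Int.natCast_dvd.1 hd')
      exact hne (e1.trans e2.symm)

/-- one window, almost all pairs; the other shifts are killed -/
theorem mt4 (m M Q : ℕ) (hQ0 : 0 < Q) : ∃ k B : ℕ, ∀ (H : ℕ) (S : Finset ℕ), S ⊆ range H →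
    (∀ h ∈ S, Q ∣ h) → Q ≤ 12 * H → k ≤ S.card →
    ∀ (A d C : ℕ) (ε : ℝ), 0 < ε →
    ∃ S0 : ℕ, ∀ Φ : Fam, S0 ≤ Φ.S2 →
      (∀ t : ℕ, |Φ.c t| ≤ ⌈Real.log Φ.S2⌉₊ ^ A * Φ.S2 * (t + 1) ^ d) →
      (Φ.S2 : ℝ) ^ 2 ≤ 4 * NN Φ → ∀ J : ℕ, (J : ℝ) ≤ Real.log Φ.S2 ^ C →
      ∃ Bad : Finset (ℕ × ℕ), (Bad.card : ℝ) ≤ ε * NN Φ ∧
        ∀ n : ℕ × ℕ, n.1 < Φ.S2 → n.2 < Φ.g n.1 →
          (∀ p : ℕ, p.Prime → (∃ t : ℕ, ¬ (p : ℤ) ∣ vv Φ t n) ∧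
            ((range p).filter (fun i => (p : ℤ) ∣ vv Φ i n)).card ≤ M) → n ∉ Bad → ∀ ρ < Q,
          (∀ p : ℕ, p.Prime → p ∣ Q → ¬ (p : ℤ) ∣ vv Φ ρ n) →
          ∃ i : ℕ, J < i ∧ (i : ℝ) ≤ J + Real.log Φ.S2 ^ B ∧
            (∀ p : ℕ, p.Prime → p ∣ Q → i ≡ ρ [MOD p]) ∧
            (∀ t ∈ range H \ S, ¬ (vv Φ (i + t) n).natAbs.Prime) ∧
            m ≤ (S.filter (fun h => (vv Φ (i + h) n).natAbs.Prime)).card := by
  classical
  obtain ⟨c0, hc0, zc, hzc⟩ := Wphi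
  obtain ⟨K, hK⟩ : ∃ K, K = ⌈12096000 * (m : ℝ) / c0⌉₊ := ⟨_, rfl⟩
  have hK1 : 12096000 * (m : ℝ) < c0 * (K + 1) := by
    have h1 : 12096000 * (m : ℝ) / c0 ≤ K := by rw [hK]; exact Nat.le_ceil _
    rw [div_le_iff₀ hc0] at h1
    nlinarith
  obtain ⟨b, hb⟩ : ∃ b, b = 12 * 2 ^ (2 * (2 * 2 ^ K)) + 4 := ⟨_, rfl⟩
  refine ⟨(M * 2 ^ K).factorial * 2 ^ K, b + 3, fun H S hSH hSQ hQH hS A d C ε hε => ?_⟩
  obtain ⟨D, hD⟩ : ∃ D, D = (M * 2 ^ K).factorial := ⟨_, rfl⟩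
  have hD0 : 0 < D := by rw [hD]; exact Nat.factorial_pos _
  rw [← hD] at hS
  obtain ⟨y, _, hy⟩ := exists_le_card_fiber_of_mul_le_card_of_maps_to
    (s := S) (t := range D) (f := fun x => x % D) (n := 2 ^ K)
    (fun x _ => mem_range.2 (Nat.mod_lt _ hD0)) ⟨0, mem_range.2 hD0⟩ (by rw [card_range]; exact hS)
  obtain ⟨T, hT1, hT2⟩ := exists_subset_card_eq hy
  have hTS : T ⊆ S := hT1.trans (filter_subset _ _)
  have hTD : ∀ x ∈ T, x % D = y := fun x hx => (mem_filter.1 (hT1 hx)).2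
  have hJ : Fintype.card ↥T = 2 ^ K := by rw [Fintype.card_coe, hT2]
  have hbJ : b = 12 * 2 ^ (Fintype.card (Fin 2 × Bool × ↥T)) + 4 := by
    rw [hb, Fintype.card_prod, Fintype.card_prod, hJ, Fintype.card_fin, Fintype.card_bool]
  have hcong : ∀ p : ℕ, p.Prime → p ≤ M * Fintype.card ↥T → ∀ j j' : ↥T,
      (p : ℤ) ∣ (((j : ℕ)) : ℤ) - ((j' : ℕ) : ℤ) := by
    intro p hp hpl j j'
    rw [hJ] at hpl
    have h1 : p ∣ D := by rw [hD]; exact Nat.dvd_factorial hp.pos hpl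
    have h2 : (j' : ℕ) ≡ (j : ℕ) [MOD D] := by
      unfold Nat.ModEq
      rw [hTD _ j.2, hTD _ j'.2]
    exact dvd_trans (by exact_mod_cast h1) h2.dvd
  obtain ⟨θ, hθ⟩ : ∃ θ : ℝ, θ = min (1 / 2) (ε / Q / 2 / (44 * (2 ^ K + 1))) := ⟨_, rfl⟩
  have hQr : (0 : ℝ) < Q := by exact_mod_cast hQ0
  have hθ0 : 0 < θ := by rw [hθ]; apply lt_min (by norm_num); positivity
  have hθ1 : θ ≤ 1 / 2 := by rw [hθ]; exact min_le_left _ _
  have hθ2 : 44 * ((2 : ℝ) ^ K + 1) * θ ≤ ε / Q / 2 := by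
    have h1 : θ ≤ ε / Q / 2 / (44 * (2 ^ K + 1)) := by rw [hθ]; exact min_le_right _ _
    rw [le_div_iff₀ (by positivity)] at h1
    linarith
  have hall : ∀ ρ : ℕ, _ := fun ρ : ℕ => pairs4 (J := ↥T) K m hJ c0 hc0 zc hzc hK1 (fun j => (j : ℕ))
    (fun j j' hjj h => hjj (Subtype.ext h)) (T.sup id)
    (fun j => le_sup (f := id) j.2) b C A d hbJ θ hθ0 hθ1 H (fun j => mem_range.1 (hSH (hTS j.2)))
    (range H \ S) (fun t ht => ⟨mem_range.1 (mem_sdiff.1 ht).1, fun j hj =>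
      (mem_sdiff.1 ht).2 (hj ▸ hTS j.2)⟩) (ε / Q / 2) (by positivity) Q ρ hQ0 hQH
    (fun j => hSQ j (hTS j.2))
  choose S0 hS0 using hall
  refine ⟨(range Q).sup S0, fun Φ hΦ hc hN J hJl => ?_⟩
  have hall2 : ∀ ρ ∈ range Q, _ := fun ρ hρ =>
    hS0 ρ Φ ((Finset.le_sup (f := S0) hρ).trans hΦ) hc hN J hJl
  choose! Bf hB1 hB2 using hall2
  refine ⟨(range Q).biUnion Bf, ?_, ?_⟩
  · calc (((range Q).biUnion Bf).card : ℝ) ≤ ∑ ρ ∈ range Q, ((Bf ρ).card : ℝ) := by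
          exact_mod_cast card_biUnion_le
      _ ≤ ∑ _ρ ∈ range Q, ε / Q * NN Φ := by
          apply sum_le_sum
          intro ρ hρ
          have h1 := hB1 ρ hρ
          rw [hJ] at h1
          refine h1.trans ?_
          push_cast
          exact mul_le_mul_of_nonneg_right (by linarith) (NN_nonneg Φ)
      _ = ε * NN Φ := by
          rw [sum_const, card_range, nsmul_eq_mul]
          field_simp
  · intro n hn1 hn2 hloc hnB ρ hρ hρn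
    have hρ' : ρ ∈ range Q := mem_range.2 hρ
    obtain ⟨i, hi1, hi2, hiQ, hik, hi3⟩ := hB2 ρ hρ' n hn1 hn2 (fun p hp =>
      good_res Φ (fun j : ↥T => (j : ℕ)) M p hp (hcong p hp) n (hloc p hp).1 (hloc p hp).2)
      (fun hcon => hnB (mem_biUnion.2 ⟨ρ, hρ', hcon⟩)) hρn
    refine ⟨i, hi1, hi2, hiQ, hik, hi3.trans ?_⟩
    apply card_le_card_of_injOn (fun l : ↥T => (l : ℕ))
    · intro l hl
      have hl' := (mem_filter.1 (mem_coe.1 hl)).2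
      rw [mem_coe, mem_filter]
      exact ⟨hTS l.2, hl'⟩
    · intro l _ l' _ hll
      exact Subtype.ext hll

end Pool.Agent.N688.ST
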