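import Pool.Agent.N688.ST.PtQ
import Pool.Agent.N913.MG.R1

set_option autoImplicit false
set_option maxHeartbeats 4000000

/-!
# Prime values of `a t ^ 2 + b t - k` near the root, in a given class, for almost all `k`
-/

namespace Pool.Agent.N688.ST

open Finset Filter
open Pool.Agent.N913.MG Pool.Agent.N688.NC
open Pool.Agent.N913.MT (evt_log_ge)

/-- the family `s t + a t ^ 2 - r`, `r < s ≤ T` -/
noncomputable def FT (a T : ℕ) : Fam where
  c := fun t => (a : ℤ) * (t : ℤ) ^ 2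
  g := fun s => s
  S2 := T + 1
  hc := fun t t' => by
    have e : (a : ℤ) * (t : ℤ) ^ 2 - (a : ℤ) * (t' : ℤ) ^ 2 = ((t : ℤ) - t') * (a * (t + t')) := by ring
    rw [e]
    exact dvd_mul_right _ _
  hS := by omega
  hg1 := fun s => by omega
  hg2 := fun s => le_rfl
  hg3 := fun s hs => by omega

theorem NN_FT (a T : ℕ) : NN (FT a T) = T * (T + 1) / 2 := by
  have h := Finset.sum_range_id_mul_two (T + 1)
  rw [Nat.add_sub_cancel] at h
  have h2 : ((((∑ s ∈ range (T + 1), s) * 2 : ℕ)) : ℝ) = (((T + 1) * T : ℕ) : ℝ) := by rw [h]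
  push_cast at h2
  have h3 : NN (FT a T) = ∑ s ∈ range (T + 1), (s : ℝ) := rfl
  rw [h3]
  linarith

/-- the value of the polynomial -/
def fv (a b k : ℕ) (t : ℤ) : ℤ := a * t ^ 2 + b * t - k

theorem vv_FT (a b T s r k i : ℕ) (hk : k = a * s ^ 2 + b * s + r) :
    vv (FT a T) i (2 * a * s + b, r) = fv a b k ((s + i : ℕ) : ℤ) := by
  have e : vv (FT a T) i (2 * a * s + b, r) =
    ((2 * a * s + b : ℕ) : ℤ) * (i : ℤ) + (a : ℤ) * (i : ℤ) ^ 2 - (r : ℤ) := rfl
  rw [e]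
  unfold fv
  subst hk
  push_cast
  ring

theorem fv_mod (a b k : ℕ) (t t' p : ℤ) (h : p ∣ t - t') : p ∣ fv a b k t ↔ p ∣ fv a b k t' := by
  have e : fv a b k t - fv a b k t' = (t - t') * (a * (t + t') + b) := by unfold fv; ring
  have h2 : p ∣ fv a b k t - fv a b k t' := by rw [e]; exact h.mul_right _
  constructor
  · intro h3
    have := dvd_sub h3 h2
    simpa using this
  · intro h3
    have := dvd_add h2 h3
    simpa using this

/-- the positive root -/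
noncomputable def root (a b k : ℕ) : ℝ := (√((b : ℝ) ^ 2 + 4 * a * k) - b) / (2 * a)

theorem root_ge (a b k s : ℕ) (ha : 0 < a) (h : a * s ^ 2 + b * s ≤ k) : (s : ℝ) ≤ root a b k := by
  have ha' : (0 : ℝ) < a := by exact_mod_cast ha
  unfold root
  rw [le_div_iff₀ (by positivity)]
  have h1 : (2 * a * s + b : ℝ) ≤ √((b : ℝ) ^ 2 + 4 * a * k) := by
    apply Real.le_sqrt_of_sq_le
    have h' : ((a * s ^ 2 + b * s : ℕ) : ℝ) ≤ k := by exact_mod_cast h
    push_cast at h'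
    have h2 := mul_le_mul_of_nonneg_left h' (show (0 : ℝ) ≤ 4 * a by positivity)
    nlinarith
  linarith

theorem root_lt (a b k s : ℕ) (ha : 0 < a) (h : k < a * (s + 1) ^ 2 + b * (s + 1)) :
    root a b k < s + 1 := by
  have ha' : (0 : ℝ) < a := by exact_mod_cast ha
  unfold root
  rw [div_lt_iff₀ (by positivity)]
  have h1 : √((b : ℝ) ^ 2 + 4 * a * k) < 2 * a * (s + 1) + b := by
    rw [Real.sqrt_lt' (by positivity)]
    have h' : (k : ℝ) < ((a * (s + 1) ^ 2 + b * (s + 1) : ℕ) : ℝ) := by exact_mod_cast h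
    push_cast at h'
    have h2 := mul_lt_mul_of_pos_left h' (show (0 : ℝ) < 4 * a by positivity)
    nlinarith
  linarith

theorem fv_nonneg (a b k : ℕ) (t : ℤ) (ha : 0 < a) (h : root a b k ≤ t) : 0 ≤ fv a b k t := by
  have ha' : (0 : ℝ) < a := by exact_mod_cast ha
  unfold root at h
  rw [div_le_iff₀ (by positivity)] at h
  have h1 : √((b : ℝ) ^ 2 + 4 * a * k) ≤ 2 * a * t + b := by linarith
  obtain ⟨h2, h3⟩ := Real.sqrt_le_iff.1 h1
  have h4 : (0 : ℝ) ≤ 4 * a * (a * (t : ℝ) ^ 2 + b * t - k) := by nlinarith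
  have h5 : (0 : ℝ) ≤ a * (t : ℝ) ^ 2 + b * t - k := by
    by_contra hc
    push Not at hc
    have := mul_neg_of_pos_of_neg (show (0 : ℝ) < 4 * a by positivity) hc
    linarith
  unfold fv
  exact_mod_cast h5

/-- one window -/
theorem quadQ (a b : ℕ) (ha : 0 < a) (m Q : ℕ) (hQ0 : 0 < Q) : ∃ K B : ℕ, ∀ (H : ℕ) (S : Finset ℕ),
    S ⊆ range H → (∀ h ∈ S, Q ∣ h) → Q ≤ 12 * H → K ≤ S.card → ∀ (C : ℕ) (ε : ℝ), 0 < ε →
    ∃ X₀ : ℕ, ∀ X : ℕ, X₀ ≤ X → ∀ J : ℕ, (J : ℝ) ≤ Real.log X ^ C →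
    ∃ Bad : Finset ℕ, (Bad.card : ℝ) ≤ ε * X ∧ ∀ k ∈ Icc 1 X, k ∉ Bad →
      (∀ p : ℕ, p.Prime → ∃ t : ℤ, ¬ (p : ℤ) ∣ fv a b k t) →
      ∀ c : ℤ, (∀ p : ℕ, p.Prime → p ∣ Q → ¬ (p : ℤ) ∣ fv a b k c) →
      ∃ n : ℕ, root a b k + J < n ∧ (n : ℝ) ≤ root a b k + J + Real.log X ^ B ∧
        (∀ p : ℕ, p.Prime → p ∣ Q → (p : ℤ) ∣ (n : ℤ) - c) ∧
        (∀ t ∈ range H \ S, ¬ (fv a b k ((n + t : ℕ) : ℤ)).natAbs.Prime) ∧
        m ≤ (S.filter (fun h => (fv a b k ((n + h : ℕ) : ℤ)).natAbs.Prime)).card := by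
  classical
  have ha' : (0 : ℝ) < a := by exact_mod_cast ha
  obtain ⟨K, B, hmt⟩ := mt4 m 3 Q hQ0
  refine ⟨K, B + 1, fun H S hSH hSQ hQH hS C ε hε => ?_⟩
  obtain ⟨c1, hc1⟩ : ∃ c1 : ℕ, c1 = 2 * a + b + 1 := ⟨_, rfl⟩
  have hc1' : (0 : ℝ) < c1 := by rw [hc1]; positivity
  obtain ⟨S0, hS0⟩ := hmt H S hSH hSQ hQH hS 0 2 (2 * (C + 1)) (ε / (2 * (c1 : ℝ) ^ 2)) (by positivity)
  obtain ⟨N2, hN2⟩ := eventually_atTop.1 (evt_log_ge 2)
  obtain ⟨M0, hM0⟩ : ∃ M0, M0 = S0 + N2 + ⌈4 * (a : ℝ) / ε⌉₊ + c1 := ⟨_, rfl⟩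
  refine ⟨M0 ^ 2, fun X hX J hJ => ?_⟩
  obtain ⟨σ, hσ⟩ : ∃ σ, σ = Nat.sqrt X := ⟨_, rfl⟩
  have hσM : M0 ≤ σ := by rw [hσ]; exact Nat.le_sqrt'.2 hX
  have hσ1 : σ ^ 2 ≤ X := by rw [hσ]; exact Nat.sqrt_le' X
  have hσ2 : X < (σ + 1) ^ 2 := by rw [hσ]; exact Nat.lt_succ_sqrt' X
  have hσ0 : 1 ≤ σ := by omega
  have hσc : c1 ≤ σ := by omega
  obtain ⟨T, hT⟩ : ∃ T, T = 2 * a * σ + b := ⟨_, rfl⟩
  have haσ : σ ≤ a * σ := Nat.le_mul_of_pos_left σ ha
  have h2aσ : 2 * a * σ = 2 * (a * σ) := by ring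
  have hσT : σ + 1 ≤ T + 1 := by rw [hT, h2aσ]; omega
  have hT1 : T + 1 ≤ c1 * σ := by
    rw [hT, hc1]
    have : b ≤ b * σ := Nat.le_mul_of_pos_right b (by omega)
    have e : (2 * a + b + 1) * σ = 2 * a * σ + b * σ + σ := by ring
    rw [e]
    omega
  have hTX : T + 1 ≤ X := by
    calc T + 1 ≤ c1 * σ := hT1
      _ ≤ σ * σ := Nat.mul_le_mul_right _ hσc
      _ = σ ^ 2 := (pow_two σ).symm
      _ ≤ X := hσ1
  have hTsq : ((T : ℝ) + 1) ^ 2 ≤ (c1 : ℝ) ^ 2 * X := by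
    have h1 : (T + 1) ^ 2 ≤ c1 ^ 2 * X := by
      calc (T + 1) ^ 2 ≤ (c1 * σ) ^ 2 := Nat.pow_le_pow_left hT1 2
        _ = c1 ^ 2 * σ ^ 2 := by ring
        _ ≤ c1 ^ 2 * X := Nat.mul_le_mul_left _ hσ1
    exact_mod_cast h1
  have hT0 : (1 : ℝ) ≤ T := by
    have : 1 ≤ T := by omega
    exact_mod_cast this
  have hNN := NN_FT a T
  have hN0 : NN (FT a T) ≤ (c1 : ℝ) ^ 2 * X := by rw [hNN]; nlinarith
  -- logarithms
  have hlogS : (2 : ℝ) ≤ Real.log ((T + 1 : ℕ) : ℝ) := hN2 (T + 1) (by omega)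
  have hlogSX : Real.log ((T + 1 : ℕ) : ℝ) ≤ Real.log X :=
    Real.log_le_log (by positivity) (by exact_mod_cast hTX)
  have hlogXS : Real.log X ≤ Real.log ((T + 1 : ℕ) : ℝ) ^ 2 := by
    have h1 : (X : ℝ) ≤ ((T + 1 : ℕ) : ℝ) ^ 2 := by
      have : X ≤ (T + 1) ^ 2 := hσ2.le.trans (Nat.pow_le_pow_left hσT 2)
      exact_mod_cast this
    have h2 := Real.log_le_log (show (0 : ℝ) < X by
      have : 0 < X := by omega
      exact_mod_cast this) h1
    rw [Real.log_pow] at h2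
    push_cast at h2 hlogS ⊢
    nlinarith
  have hlogX : (2 : ℝ) ≤ Real.log X := hlogS.trans hlogSX
  have hJ1 : ((J + 1 : ℕ) : ℝ) ≤ Real.log ((T + 1 : ℕ) : ℝ) ^ (2 * (C + 1)) := by
    have h1 : (1 : ℝ) ≤ Real.log X ^ C := one_le_pow₀ (by linarith)
    have h2 : ((J + 1 : ℕ) : ℝ) ≤ Real.log X ^ (C + 1) := by
      push_cast
      calc (J : ℝ) + 1 ≤ Real.log X ^ C + Real.log X ^ C := by linarith
        _ = 2 * Real.log X ^ C := by ring
        _ ≤ Real.log X * Real.log X ^ C := mul_le_mul_of_nonneg_right hlogX (by linarith)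
        _ = Real.log X ^ (C + 1) := by ring
    refine h2.trans ?_
    rw [pow_mul]
    exact pow_le_pow_left₀ (by linarith) hlogXS _
  obtain ⟨Bad, hb1, hb2⟩ := hS0 (FT a T) (by show S0 ≤ T + 1; omega)
    (fun t => by
      show |(a : ℤ) * (t : ℤ) ^ 2| ≤ ((⌈Real.log ((T + 1 : ℕ) : ℝ)⌉₊ : ℕ) : ℤ) ^ 0 *
        ((T + 1 : ℕ) : ℤ) * ((t : ℤ) + 1) ^ 2
      rw [pow_zero, one_mul, abs_of_nonneg (by positivity)]
      apply mul_le_mul _ _ (by positivity) (by positivity)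
      · have : a ≤ T + 1 := by
          rw [hT, h2aσ]
          have : a ≤ a * σ := Nat.le_mul_of_pos_right a (by omega)
          omega
        exact_mod_cast this
      · exact pow_le_pow_left₀ (by positivity) (by linarith) 2)
    (by
      rw [hNN]
      show ((T + 1 : ℕ) : ℝ) ^ 2 ≤ _
      push_cast
      nlinarith) (J + 1) hJ1
  set Bad1 : Finset ℕ := Bad.image
    (fun x => a * ((x.1 - b) / (2 * a)) ^ 2 + b * ((x.1 - b) / (2 * a)) + x.2) with hBad1
  set Bad2 : Finset ℕ := (range (σ + 1) ×ˢ range a).image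
    (fun x => a * x.1 ^ 2 + b * x.1 + (2 * a * x.1 + b) + x.2) with hBad2
  refine ⟨Bad1 ∪ Bad2, ?_, ?_⟩
  · have h1 : (Bad1.card : ℝ) ≤ ε / 2 * X := by
      calc (Bad1.card : ℝ) ≤ Bad.card := by exact_mod_cast card_image_le
        _ ≤ ε / (2 * (c1 : ℝ) ^ 2) * NN (FT a T) := hb1
        _ ≤ ε / (2 * (c1 : ℝ) ^ 2) * ((c1 : ℝ) ^ 2 * X) := mul_le_mul_of_nonneg_left hN0 (by positivity)
        _ = ε / 2 * X := by field_simp
    have h2 : (Bad2.card : ℝ) ≤ ε / 2 * X := by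
      have g1 : Bad2.card ≤ (σ + 1) * a := by
        refine card_image_le.trans ?_
        rw [card_product, card_range, card_range]
      have g2 : (4 * (a : ℝ) / ε) ≤ σ := by
        refine (Nat.le_ceil _).trans ?_
        have : ⌈4 * (a : ℝ) / ε⌉₊ ≤ σ := by omega
        exact_mod_cast this
      rw [div_le_iff₀ hε] at g2
      have g3 : ((σ : ℝ)) ^ 2 ≤ X := by exact_mod_cast hσ1
      have g4 : (1 : ℝ) ≤ σ := by exact_mod_cast hσ0
      calc (Bad2.card : ℝ) ≤ (((σ + 1) * a : ℕ) : ℝ) := by exact_mod_cast g1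
        _ = ((σ : ℝ) + 1) * a := by push_cast; ring
        _ ≤ (2 * σ) * a := mul_le_mul_of_nonneg_right (by linarith) ha'.le
        _ = (σ / 2) * (4 * a) := by ring
        _ ≤ (σ / 2) * (σ * ε) := mul_le_mul_of_nonneg_left g2 (by positivity)
        _ = ε / 2 * (σ : ℝ) ^ 2 := by ring
        _ ≤ ε / 2 * X := mul_le_mul_of_nonneg_left g3 (by positivity)
    have h3 : ((Bad1 ∪ Bad2).card : ℝ) ≤ Bad1.card + Bad2.card := by exact_mod_cast card_union_le _ _
    linarith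
  · intro k hk hkB hloc c hc
    rw [mem_union, not_or] at hkB
    obtain ⟨hkB1, hkB2⟩ := hkB
    have hkX := (mem_Icc.1 hk).2
    -- the integer part of the root
    obtain ⟨s, hs1, hs2⟩ : ∃ s : ℕ, a * s ^ 2 + b * s ≤ k ∧ k < a * (s + 1) ^ 2 + b * (s + 1) := by
      have hex : ∃ s : ℕ, k < a * (s + 1) ^ 2 + b * (s + 1) := by
        refine ⟨k, ?_⟩
        have h1 : k + 1 ≤ (k + 1) ^ 2 := by nlinarith
        have h2 : (k + 1) ^ 2 ≤ a * (k + 1) ^ 2 := Nat.le_mul_of_pos_left _ ha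
        omega
      refine ⟨Nat.find hex, ?_, Nat.find_spec hex⟩
      rcases Nat.eq_zero_or_pos (Nat.find hex) with h0 | h0
      · rw [h0]
        simp
      · have h1 := Nat.find_min hex (show Nat.find hex - 1 < Nat.find hex by omega)
        push Not at h1
        rwa [Nat.sub_add_cancel h0] at h1
    obtain ⟨r, hr⟩ : ∃ r, k = a * s ^ 2 + b * s + r := ⟨k - (a * s ^ 2 + b * s), by omega⟩
    have hsσ : s ≤ σ := by
      rw [hσ]
      apply Nat.le_sqrt'.2
      calc s ^ 2 ≤ a * s ^ 2 := Nat.le_mul_of_pos_left _ ha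
        _ ≤ k := by omega
        _ ≤ X := hkX
    have hr1 : r < 2 * a * s + b + a := by
      have e : a * (s + 1) ^ 2 + b * (s + 1) = a * s ^ 2 + b * s + (2 * a * s + b + a) := by ring
      omega
    have hr2 : r < 2 * a * s + b := by
      by_contra hcon
      push Not at hcon
      apply hkB2
      rw [hBad2, mem_image]
      refine ⟨(s, r - (2 * a * s + b)), mem_product.2 ⟨mem_range.2 (by omega), mem_range.2 (by
        show r - (2 * a * s + b) < a
        omega)⟩, ?_⟩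
      simp only
      omega
    have hmemS : 2 * a * s + b < T + 1 := by
      have := Nat.mul_le_mul_left (2 * a) hsσ
      rw [hT]
      omega
    have hnB : (2 * a * s + b, r) ∉ Bad := by
      intro h
      apply hkB1
      rw [hBad1, mem_image]
      refine ⟨_, h, ?_⟩
      have e : (2 * a * s + b - b) / (2 * a) = s := by
        rw [Nat.add_sub_cancel]
        exact Nat.mul_div_cancel_left s (by omega)
      simp only
      rw [e, hr]
    have hval : ∀ i : ℕ, vv (FT a T) i (2 * a * s + b, r) = fv a b k ((s + i : ℕ) : ℤ) :=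
      fun i => vv_FT a b T s r k i hr
    -- the auxiliary polynomial
    obtain ⟨P, hP⟩ : ∃ P : Polynomial ℤ, P = Polynomial.C (a : ℤ) * Polynomial.X ^ 2 := ⟨_, rfl⟩
    have hPd : P.natDegree ≤ 2 := by rw [hP]; exact Polynomial.natDegree_C_mul_X_pow_le _ _
    have hPv : ∀ i : ℤ, val P ((2 * a * s + b : ℕ) : ℤ) (-(r : ℤ)) i = fv a b k (s + i) := by
      intro i
      unfold Pool.Agent.N913.MG.val fv
      rw [hP, hr]
      simp only [Polynomial.eval_mul, Polynomial.eval_C, Polynomial.eval_pow, Polynomial.eval_X]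
      push_cast
      ring
    have hloc2 : ∀ p : ℕ, p.Prime → ∃ t : ℤ, ¬ (p : ℤ) ∣ val P ((2 * a * s + b : ℕ) : ℤ) (-(r : ℤ)) t := by
      intro p hp
      obtain ⟨t, ht⟩ := hloc p hp
      refine ⟨t - s, ?_⟩
      rw [hPv, add_sub_cancel]
      exact ht
    have hQz : (Q : ℤ) ≠ 0 := by exact_mod_cast hQ0.ne'
    obtain ⟨ρ, hρ⟩ : ∃ ρ : ℕ, (ρ : ℤ) = (c - s) % Q := ⟨((c - s) % Q).toNat, by
      rw [Int.toNat_of_nonneg (Int.emod_nonneg _ hQz)]⟩
    have hρQ : ρ < Q := by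
      have := Int.emod_lt_of_pos (c - s) (show (0 : ℤ) < Q by exact_mod_cast hQ0)
      rw [← hρ] at this
      exact_mod_cast this
    have hρc : (Q : ℤ) ∣ c - s - ρ := by rw [hρ]; exact Int.dvd_self_sub_emod
    obtain ⟨i, hi1, hi2, hiQ, hik, hi3⟩ := hb2 (2 * a * s + b, r) hmemS hr2
      (by
        intro p hp
        obtain ⟨t, ht⟩ := locP1 P _ _ p hp (hloc2 p hp)
        refine ⟨⟨t, ?_⟩, ?_⟩
        · rw [hval]
          rw [hPv] at ht
          push_cast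
          exact ht
        · refine le_trans (le_of_eq ?_) (locP2 2 P hPd _ _ p hp (hloc2 p hp))
          congr 1
          apply filter_congr
          intro t _
          rw [hval, hPv]
          push_cast
          rfl) hnB ρ hρQ
      (by
        intro p hp hpQ
        rw [hval]
        intro hd
        apply hc p hp hpQ
        apply (fv_mod a b k ((s + ρ : ℕ) : ℤ) c p _).1 hd
        have h1 : (p : ℤ) ∣ (Q : ℤ) := by exact_mod_cast hpQ
        have h2 := (h1.trans hρc).neg_right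
        have e : ((s + ρ : ℕ) : ℤ) - c = -(c - s - ρ) := by push_cast; ring
        rw [e]
        exact h2)
    have hroot1 := root_ge a b k s ha hs1
    have hroot2 := root_lt a b k s ha hs2
    refine ⟨s + i, ?_, ?_, ?_, ?_, ?_⟩
    · have h2 : (J : ℝ) + 1 + 1 ≤ i := by exact_mod_cast hi1
      push_cast
      linarith
    · have h2 : (i : ℝ) ≤ ((J + 1 : ℕ) : ℝ) + Real.log ((T + 1 : ℕ) : ℝ) ^ B := hi2
      have h3 : Real.log ((T + 1 : ℕ) : ℝ) ^ B ≤ Real.log X ^ B := pow_le_pow_left₀ (by linarith) hlogSX B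
      have h4 : (1 : ℝ) ≤ Real.log X ^ B := one_le_pow₀ (by linarith)
      have h5 : Real.log X ^ B + Real.log X ^ B ≤ Real.log X ^ (B + 1) := by
        calc Real.log X ^ B + Real.log X ^ B = 2 * Real.log X ^ B := by ring
          _ ≤ Real.log X * Real.log X ^ B := mul_le_mul_of_nonneg_right hlogX (by linarith)
          _ = Real.log X ^ (B + 1) := by ring
      have h6 : (i : ℝ) ≤ ((J + 1 : ℕ) : ℝ) + Real.log X ^ B := by linarith
      push_cast at h6 ⊢
      linarith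
    · intro p hp hpQ
      have h1 : (p : ℤ) ∣ (Q : ℤ) := by exact_mod_cast hpQ
      have h2 : (p : ℤ) ∣ (ρ : ℤ) - i := Nat.modEq_iff_dvd.1 (hiQ p hp hpQ)
      have h3 := dvd_add (h1.trans hρc) h2
      have e : ((s + i : ℕ) : ℤ) - c = -(c - s - ρ + (ρ - i)) := by push_cast; ring
      rw [e]
      exact h3.neg_right
    · intro t ht
      have h1 := hik t ht
      rw [hval] at h1
      rw [add_assoc]
      exact h1
    · refine hi3.trans (le_of_eq ?_)
      congr 1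
      apply filter_congr
      intro h _
      rw [hval, add_assoc]

end Pool.Agent.N688.ST
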